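import Pool.Agent.PCO.StmtsA

/-!
# PCO DIR (helper59): always near, the direction is in the subspace
-/

set_option autoImplicit false

open Matrix Filter Topology

namespace Pool.Agent.PCO.H59

open Pool.Agent.PFS Pool.Agent.PFJ Pool.Agent.PCO

/-- DIR -/
theorem dir : DirStmt := by
  intro n C hC W x r hx hr hr0 hext hnear
  choose q hqW hq1 hq2 using hnear
  obtain ⟨B, hB, hnorm⟩ := hC.normal
  set a : ℕ → ℝ := fun j => (1 / 2 : ℝ) ^ j with ha
  have ha0 : ∀ j, 0 < a j := fun j => by positivity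
  have ha1 : ∀ j, a j ≤ 1 := fun j => pow_le_one₀ (by norm_num) (by norm_num)
  have ha2 : ∀ j, a j * 2 ^ j = 1 := fun j => by
    rw [ha]
    simp only
    rw [← mul_pow]
    norm_num
  have e0 : ∀ j, a j • (x + (2 : ℝ) ^ j • r) = a j • x + r := fun j => by
    rw [smul_add, smul_smul, ha2, one_smul]
  have h1 : ∀ j, a j • q j - (a j • x + r) ∈ closure C := fun j => by
    have := hC.cl_smul (hq1 j) (ha0 j).le
    rwa [smul_sub, e0] at this
  have h2 : ∀ j, (2 : ℝ) • (a j • x + r) - a j • q j ∈ closure C := fun j => by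
    have := hC.cl_smul (hq2 j) (ha0 j).le
    rwa [smul_sub, smul_comm, e0] at this
  have h3 : ∀ j, a j • x + r ∈ closure C := fun j => hC.cl_add (hC.cl_smul hx (ha0 j).le) hr
  have h4 : ∀ j, a j • q j ∈ closure C := fun j => by
    have := hC.cl_add (h1 j) (h3 j)
    rwa [sub_add_cancel] at this
  have hbd : ∀ j, a j • q j ∈ Metric.closedBall (0 : V n) (B * (2 * (‖x‖ + ‖r‖))) := fun j => by
    rw [mem_closedBall_zero_iff]
    refine (hnorm _ _ (h4 j) (h2 j)).trans (mul_le_mul_of_nonneg_left ?_ hB.le)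
    rw [norm_smul, Real.norm_of_nonneg (by norm_num : (0 : ℝ) ≤ 2)]
    refine mul_le_mul_of_nonneg_left ((norm_add_le _ _).trans ?_) (by norm_num)
    rw [norm_smul, Real.norm_of_nonneg (ha0 j).le]
    have := mul_le_mul_of_nonneg_right (ha1 j) (norm_nonneg x)
    linarith
  obtain ⟨z, -, φ, hφ, hz⟩ := tendsto_subseq_of_bounded Metric.isBounded_closedBall hbd
  have hzW : z ∈ W := by
    have hcl : IsClosed (W : Set (V n)) := W.closed_of_finiteDimensional
    exact hcl.mem_of_tendsto hz (Eventually.of_forall fun m => W.smul_mem _ (hqW _))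
  have hat : Tendsto (fun m => a (φ m) • x + r) atTop (𝓝 ((0 : ℝ) • x + r)) :=
    (((tendsto_pow_atTop_nhds_zero_of_lt_one (by norm_num) (by norm_num)).comp
      hφ.tendsto_atTop).smul_const x).add tendsto_const_nhds
  rw [zero_smul, zero_add] at hat
  have h5 : z - r ∈ closure C :=
    isClosed_closure.mem_of_tendsto (hz.sub hat) (Eventually.of_forall fun m => h1 _)
  have h6 : (2 : ℝ) • r - z ∈ closure C :=
    isClosed_closure.mem_of_tendsto ((hat.const_smul (2 : ℝ)).sub hz)
      (Eventually.of_forall fun m => h2 _)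
  have h7 : z ∈ closure C := by
    have := hC.cl_add h5 hr
    rwa [sub_add_cancel] at this
  obtain ⟨c, hc⟩ := hext z h7 2 h6
  have hc0 : c ≠ 0 := by
    rintro rfl
    rw [zero_smul] at hc
    rw [hc, zero_sub] at h5
    exact hr0 (hC.salient r hr h5)
  have h8 : r = c⁻¹ • z := by
    rw [hc, smul_smul, inv_mul_cancel₀ hc0, one_smul]
  rw [h8]
  exact W.smul_mem _ hzW

end Pool.Agent.PCO.H59
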